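import Mathlib

/-!
# Tilings of the cube by cubes of two sizes with a given ratio

Let `a < b` be coprime positive integers. We determine, up to finitely many exceptions, the numbers
`n` for which the unit cube has a tiling by exactly `n` cubes with two side lengths of ratio
`a : b`: these are the `n` which are cubes modulo `b ^ 3 - a ^ 3`. For an irrational ratio `n` has
to be the cube of an integer (only one of the sizes is used). In particular, for each finite set of
ratios there is a residue class of numbers `n` for which there is no tiling with such a ratio. In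
contrast to this, three side lengths with the ratios `1 : 1/2 : 1/7` suffice for all large `n`.

Proof. A generic line parallel to a side of the unit cube shows that `1` is a sum of side lengths,
so if the side lengths are `a u` and `b u` then `1 / u` is an integer `K`. The volumes show that
`K ^ 3` is a sum of `n` numbers `a ^ 3` or `b ^ 3`, so it is `n a ^ 3` modulo `b ^ 3 - a ^ 3`.
If the ratio is irrational then all generic lines in a given direction meet the same numbers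
`i`, `j` of cubes of the two sizes. Integration over the lines in a generic plane which is parallel
to a face shows that `i` and `j` are integer multiples of the side lengths, which is impossible
unless `i` or `j` is `0`. Conversely, let `n` be large and a cube modulo `D = b ^ 3 - a ^ 3`. We
choose `M` such that `(a M) ^ 3` is `n` modulo `D` and `(a M) ^ 3 ≤ n ≤ (b M) ^ 3`, divide the unit
cube into `M ^ 3` blocks and `y` of them into `b ^ 3` cubes, the others into `a ^ 3` cubes, where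
`n = (a M) ^ 3 + D y`. Finally, `a ^ 2 + a b + b ^ 2` has a prime factor `p` with `p ≡ 1` modulo
`3`, and there are residues modulo `p` which are not cubes.
-/

set_option autoImplicit false

open MeasureTheory Set

namespace Pool.Agent.Results.MP_01ad5f_co.FiniteRatios

/-- The closed cube with least corner `c` and side length `s`. -/
def Cube (c : Fin 3 → ℝ) (s : ℝ) : Set (Fin 3 → ℝ) := Icc c fun k => c k + s

/-- The closed cubes with corners `c i` and side lengths `s i` tile the unit cube: the side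
lengths are positive and less than one, the union of the cubes is the unit cube, and their
interiors are pairwise disjoint. -/
def IsTiling {ι : Type} (c : ι → Fin 3 → ℝ) (s : ι → ℝ) : Prop :=
  (∀ i, 0 < s i ∧ s i < 1) ∧ (⋃ i, Cube (c i) (s i)) = Icc 0 1 ∧
    ∀ i j, i ≠ j → Disjoint (interior (Cube (c i) (s i))) (interior (Cube (c j) (s j)))

lemma aedisj {E : Type} [NormedAddCommGroup E] [NormedSpace ℝ E] [MeasurableSpace E] [BorelSpace E]
    [FiniteDimensional ℝ E] (μ : Measure E) [μ.IsAddHaarMeasure] {A B : Set E}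
    (hA : Convex ℝ A) (hB : Convex ℝ B) (h : Disjoint (interior A) (interior B)) :
    AEDisjoint μ A B := by
  have h1 : A ∩ B ⊆ frontier A ∪ frontier B := by
    rintro x ⟨hxA, hxB⟩
    by_cases h2 : x ∈ interior A
    · right
      exact ⟨subset_closure hxB, fun h3 => Set.disjoint_left.1 h h2 h3⟩
    · left
      exact ⟨subset_closure hxA, h2⟩
  refine measure_mono_null h1 ?_
  rw [measure_union_null_iff]
  exact ⟨hA.addHaar_frontier μ, hB.addHaar_frontier μ⟩

lemma sum_one {ι : Type} (I : Finset ι) (u s : ι → ℝ) (hs : ∀ i, 0 < s i)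
    (hU : (⋃ i ∈ I, Icc (u i) (u i + s i)) = Icc (0 : ℝ) 1)
    (hd : ∀ i ∈ I, ∀ j ∈ I, i ≠ j → Disjoint (Ioo (u i) (u i + s i)) (Ioo (u j) (u j + s j))) :
    ∑ i ∈ I, s i = 1 := by
  have h1 : volume (⋃ i ∈ I, Icc (u i) (u i + s i)) = ∑ i ∈ I, volume (Icc (u i) (u i + s i)) := by
    refine measure_biUnion_finset₀ ?_ ?_
    · intro i hi j hj hij
      refine aedisj volume (convex_Icc _ _) (convex_Icc _ _) ?_
      rw [interior_Icc, interior_Icc]
      exact hd i hi j hj hij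
    · intro i _
      exact measurableSet_Icc.nullMeasurableSet
  rw [hU] at h1
  simp only [Real.volume_Icc, sub_zero, add_sub_cancel_left] at h1
  rw [← ENNReal.ofReal_sum_of_nonneg (fun i _ => (hs i).le)] at h1
  have h2 : (0 : ℝ) ≤ ∑ i ∈ I, s i := Finset.sum_nonneg fun i _ => (hs i).le
  exact ((ENNReal.ofReal_eq_ofReal_iff zero_le_one h2).1 h1).symm

lemma int_cube (c : Fin 3 → ℝ) (s : ℝ) :
    interior (Cube c s) = {x | ∀ k, c k < x k ∧ x k < c k + s} := by
  unfold Cube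
  rw [← Set.pi_univ_Icc, interior_pi_set (Set.toFinite _)]
  ext x
  simp [interior_Icc, Set.mem_pi]

lemma vol_one {n : ℕ} {c : Fin n → Fin 3 → ℝ} {s : Fin n → ℝ} (h : IsTiling c s) :
    ∑ i, s i ^ 3 = 1 := by
  obtain ⟨hs, hU, hd⟩ := h
  have h1 : volume (⋃ i, Cube (c i) (s i)) = ∑ i, volume (Cube (c i) (s i)) := by
    rw [measure_iUnion₀, tsum_fintype]
    · intro i j hij
      exact aedisj volume (convex_Icc _ _) (convex_Icc _ _) (hd i j hij)
    · intro i
      exact measurableSet_Icc.nullMeasurableSet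
  rw [hU] at h1
  have h3 : volume (Icc (0 : Fin 3 → ℝ) 1) = 1 := by
    rw [Real.volume_Icc_pi]; simp
  have h4 : ∀ i, volume (Cube (c i) (s i)) = ENNReal.ofReal (s i ^ 3) := by
    intro i
    unfold Cube
    rw [Real.volume_Icc_pi]
    simp only [add_sub_cancel_left, Finset.prod_const, Finset.card_univ, Fintype.card_fin]
    rw [ENNReal.ofReal_pow (hs i).1.le]
  rw [h3] at h1
  simp only [h4] at h1
  rw [← ENNReal.ofReal_sum_of_nonneg (fun i _ => pow_nonneg (hs i).1.le 3)] at h1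
  have h2 : (0 : ℝ) ≤ ∑ i, s i ^ 3 := Finset.sum_nonneg fun i _ => pow_nonneg (hs i).1.le 3
  rw [← ENNReal.ofReal_one] at h1
  exact ((ENNReal.ofReal_eq_ofReal_iff zero_le_one h2).1 h1).symm

/-- The open tile over the point `(y, z)`. -/
def Over {n : ℕ} (c : Fin n → Fin 3 → ℝ) (s : Fin n → ℝ) (y z : ℝ) (i : Fin n) : Prop :=
  (c i 1 < y ∧ y < c i 1 + s i) ∧ (c i 2 < z ∧ z < c i 2 + s i)

/-- `y` is a generic value of the coordinate `k`. -/
def Gen {n : ℕ} (c : Fin n → Fin 3 → ℝ) (s : Fin n → ℝ) (k : Fin 3) (y : ℝ) : Prop :=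
  y ∈ Ioo (0 : ℝ) 1 ∧ ∀ i, y ≠ c i k ∧ y ≠ c i k + s i

lemma bad_finite {n : ℕ} (c : Fin n → Fin 3 → ℝ) (s : Fin n → ℝ) (k : Fin 3) :
    (Set.range (fun i => c i k) ∪ Set.range (fun i => c i k + s i)).Finite :=
  (Set.finite_range _).union (Set.finite_range _)

lemma gen_of {n : ℕ} {c : Fin n → Fin 3 → ℝ} {s : Fin n → ℝ} {k : Fin 3} {y : ℝ}
    (hy : y ∈ Ioo (0 : ℝ) 1)
    (hy' : y ∉ Set.range (fun i => c i k) ∪ Set.range (fun i => c i k + s i)) :
    Gen c s k y := by
  refine ⟨hy, fun i => ⟨?_, ?_⟩⟩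
  · rintro rfl
    exact hy' (Or.inl ⟨i, rfl⟩)
  · rintro rfl
    exact hy' (Or.inr ⟨i, rfl⟩)

lemma exists_gen {n : ℕ} (c : Fin n → Fin 3 → ℝ) (s : Fin n → ℝ) (k : Fin 3) {u v : ℝ}
    (huv : u < v) (hu : 0 ≤ u) (hv : v ≤ 1) : ∃ y, Gen c s k y ∧ u < y ∧ y < v := by
  obtain ⟨y, hy, hy'⟩ := ((Set.Ioo_infinite huv).sdiff (bad_finite c s k)).nonempty
  exact ⟨y, gen_of ⟨hu.trans_lt hy.1, hy.2.trans_le hv⟩ hy', hy.1, hy.2⟩

open Classical in
lemma line_sum {n : ℕ} {c : Fin n → Fin 3 → ℝ} {s : Fin n → ℝ} (h : IsTiling c s) {y z : ℝ}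
    (hy : Gen c s 1 y) (hz : Gen c s 2 z) :
    ∑ i ∈ Finset.univ.filter (Over c s y z), s i = 1 := by
  obtain ⟨hs, hU, hd⟩ := h
  obtain ⟨hy, hy'⟩ := hy
  obtain ⟨hz, hz'⟩ := hz
  refine sum_one _ (fun i => c i 0) s (fun i => (hs i).1) ?_ ?_
  · ext t
    constructor
    · intro ht
      simp only [mem_iUnion] at ht
      obtain ⟨i, hi, ht⟩ := ht
      have hi' : Over c s y z i := by simpa using hi
      have hmem : (![t, y, z] : Fin 3 → ℝ) ∈ ⋃ i, Cube (c i) (s i) := by
        refine mem_iUnion.2 ⟨i, ?_⟩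
        refine ⟨fun k => ?_, fun k => ?_⟩
        · fin_cases k
          · exact ht.1
          · exact hi'.1.1.le
          · exact hi'.2.1.le
        · fin_cases k
          · exact ht.2
          · exact hi'.1.2.le
          · exact hi'.2.2.le
      rw [hU] at hmem
      exact ⟨hmem.1 0, hmem.2 0⟩
    · intro ht
      have hmem : (![t, y, z] : Fin 3 → ℝ) ∈ Icc (0 : Fin 3 → ℝ) 1 := by
        refine ⟨fun k => ?_, fun k => ?_⟩
        · fin_cases k
          · exact ht.1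
          · exact hy.1.le
          · exact hz.1.le
        · fin_cases k
          · exact ht.2
          · exact hy.2.le
          · exact hz.2.le
      rw [← hU] at hmem
      obtain ⟨i, hi⟩ := mem_iUnion.1 hmem
      simp only [mem_iUnion]
      refine ⟨i, ?_, ?_⟩
      · have h1 : c i 1 ≤ y := hi.1 1
        have h2 : y ≤ c i 1 + s i := hi.2 1
        have h3 : c i 2 ≤ z := hi.1 2
        have h4 : z ≤ c i 2 + s i := hi.2 2
        have : Over c s y z i :=
          ⟨⟨lt_of_le_of_ne h1 (hy' i).1.symm, lt_of_le_of_ne h2 (hy' i).2⟩,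
            ⟨lt_of_le_of_ne h3 (hz' i).1.symm, lt_of_le_of_ne h4 (hz' i).2⟩⟩
        simpa using this
      · exact ⟨hi.1 0, hi.2 0⟩
  · intro i hi j hj hij
    have hi' : Over c s y z i := by simpa using hi
    have hj' : Over c s y z j := by simpa using hj
    rw [Set.disjoint_left]
    intro t ht ht'
    have hdd := hd i j hij
    rw [int_cube, int_cube, Set.disjoint_left] at hdd
    apply hdd (a := ![t, y, z])
    · intro k
      fin_cases k
      · exact ht
      · exact hi'.1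
      · exact hi'.2
    · intro k
      fin_cases k
      · exact ht'
      · exact hj'.1
      · exact hj'.2

lemma line_one {n : ℕ} {c : Fin n → Fin 3 → ℝ} {s : Fin n → ℝ} (h : IsTiling c s) :
    ∃ I : Finset (Fin n), ∑ i ∈ I, s i = 1 := by
  obtain ⟨y, hy, -⟩ := exists_gen c s 1 zero_lt_one le_rfl le_rfl
  obtain ⟨z, hz, -⟩ := exists_gen c s 2 zero_lt_one le_rfl le_rfl
  exact ⟨_, line_sum h hy hz⟩

lemma tile_bounds {n : ℕ} {c : Fin n → Fin 3 → ℝ} {s : Fin n → ℝ} (h : IsTiling c s) (i : Fin n)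
    (k : Fin 3) : 0 ≤ c i k ∧ c i k + s i ≤ 1 := by
  have h1 : Cube (c i) (s i) ⊆ Icc 0 1 := by
    rw [← h.2.1]; exact subset_iUnion (fun i => Cube (c i) (s i)) i
  have hs := (h.1 i).1
  have h2 : c i ∈ Cube (c i) (s i) := ⟨le_rfl, fun k => by simp [hs.le]⟩
  have h3 : (fun k => c i k + s i) ∈ Cube (c i) (s i) := ⟨fun k => by simp [hs.le], le_rfl⟩
  exact ⟨(h1 h2).1 k, (h1 h3).2 k⟩

open Classical in
/-- If each generic line at height `z` meets the same number `i₀` of tiles of the set `T` then the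
sum of the side lengths of the tiles of `T` at height `z` is `i₀`. -/
lemma slice_sum {n : ℕ} {c : Fin n → Fin 3 → ℝ} {s : Fin n → ℝ} (h : IsTiling c s) {z : ℝ}
    (T : Finset (Fin n)) (hT : ∀ i ∈ T, c i 2 < z ∧ z < c i 2 + s i) (i₀ : ℕ)
    (hi : ∀ y, Gen c s 1 y → (T.filter (Over c s y z)).card = i₀) :
    ∑ i ∈ T, s i = i₀ := by
  have h1 : ∫⁻ y : ℝ, ∑ i ∈ T, (Ioo (c i 1) (c i 1 + s i)).indicator (fun _ => (1 : ENNReal)) y
      = ∑ i ∈ T, ENNReal.ofReal (s i) := by
    rw [lintegral_finsetSum]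
    · refine Finset.sum_congr rfl fun i _ => ?_
      rw [lintegral_indicator measurableSet_Ioo]
      simp
    · intro i _
      exact measurable_const.indicator measurableSet_Ioo
  have h2 : ∫⁻ y : ℝ, ∑ i ∈ T, (Ioo (c i 1) (c i 1 + s i)).indicator (fun _ => (1 : ENNReal)) y
      = ∫⁻ y : ℝ, (Ioo (0 : ℝ) 1).indicator (fun _ => (i₀ : ENNReal)) y := by
    refine lintegral_congr_ae ?_
    have h3 : (Set.range (fun i => c i 1) ∪ Set.range (fun i => c i 1 + s i))ᶜ ∈ ae volume :=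
      compl_mem_ae_iff.2 ((bad_finite c s 1).measure_zero volume)
    filter_upwards [h3] with y hy
    by_cases hy1 : y ∈ Ioo (0 : ℝ) 1
    · rw [Set.indicator_of_mem hy1]
      rw [← hi y (gen_of hy1 hy)]
      rw [Finset.card_filter]
      push_cast
      refine Finset.sum_congr rfl fun i hiT => ?_
      by_cases hm : y ∈ Ioo (c i 1) (c i 1 + s i)
      · rw [Set.indicator_of_mem hm, if_pos ⟨hm, hT i hiT⟩]
      · rw [Set.indicator_of_notMem hm, if_neg (fun h4 => hm h4.1)]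
    · rw [Set.indicator_of_notMem hy1]
      refine Finset.sum_eq_zero fun i _ => ?_
      rw [Set.indicator_of_notMem]
      intro hm
      have hb := tile_bounds h i 1
      exact hy1 ⟨lt_of_le_of_lt hb.1 hm.1, lt_of_lt_of_le hm.2 hb.2⟩
  rw [h1, lintegral_indicator measurableSet_Ioo] at h2
  simp only [lintegral_const, Measure.restrict_apply MeasurableSet.univ, univ_inter,
    Real.volume_Ioo, sub_zero, ENNReal.ofReal_one, mul_one] at h2
  rw [← ENNReal.ofReal_sum_of_nonneg (fun i _ => ((h.1 i).1).le), ← ENNReal.ofReal_natCast] at h2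
  exact (ENNReal.ofReal_eq_ofReal_iff (Finset.sum_nonneg fun i _ => (h.1 i).1.le)
    (Nat.cast_nonneg _)).1 h2

open Classical in
/-- The numbers of tiles of the two sizes on a generic line. -/
lemma line_counts {n : ℕ} {c : Fin n → Fin 3 → ℝ} {s : Fin n → ℝ} (h : IsTiling c s) {y z : ℝ}
    {s₁ s₂ : ℝ} (hw : ∀ i, s i = s₁ ∨ s i = s₂) (hy : Gen c s 1 y) (hz : Gen c s 2 z) :
    ((Finset.univ.filter fun i => Over c s y z i ∧ s i = s₁).card : ℝ) * s₁ +
      ((Finset.univ.filter fun i => Over c s y z i ∧ s i ≠ s₁).card : ℝ) * s₂ = 1 := by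
  rw [← line_sum h hy hz, ← Finset.sum_filter_add_sum_filter_not (Finset.univ.filter (Over c s y z))
    (fun i => s i = s₁)]
  rw [Finset.filter_filter, Finset.filter_filter]
  congr 1
  · rw [Finset.sum_congr rfl (g := fun _ => s₁) (fun i hi => by
      simp only [Finset.mem_filter, Finset.mem_univ, true_and] at hi
      exact hi.2)]
    rw [Finset.sum_const, nsmul_eq_mul]
  · rw [Finset.sum_congr rfl (g := fun _ => s₂) (fun i hi => by
      simp only [Finset.mem_filter, Finset.mem_univ, true_and] at hi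
      exact (hw i).resolve_left hi.2)]
    rw [Finset.sum_const, nsmul_eq_mul]

open Classical in
/-- If the ratio of the sizes is irrational then only one of them is used. -/
lemma irr {n : ℕ} {c : Fin n → Fin 3 → ℝ} {s : Fin n → ℝ} (h : IsTiling c s)
    {s₁ s₂ : ℝ} (h₂ : 0 < s₂) (hr : Irrational (s₁ / s₂))
    (hw : ∀ i, s i = s₁ ∨ s i = s₂) : (∀ i, s i = s₁) ∨ ∀ i, s i = s₂ := by
  by_contra hcon
  push Not at hcon
  obtain ⟨⟨k2, hk2⟩, ⟨k1, hk1⟩⟩ := hcon
  have hk1' : s k1 = s₁ := (hw k1).resolve_right hk1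
  -- generic points over a tile
  have hover : ∀ i, ∃ y z, Gen c s 1 y ∧ Gen c s 2 z ∧ Over c s y z i := by
    intro i
    have hs := (h.1 i).1
    obtain ⟨y, hy, hy1, hy2⟩ := exists_gen c s 1 (u := c i 1) (v := c i 1 + s i) (by linarith)
      (tile_bounds h i 1).1 (tile_bounds h i 1).2
    obtain ⟨z, hz, hz1, hz2⟩ := exists_gen c s 2 (u := c i 2) (v := c i 2 + s i) (by linarith)
      (tile_bounds h i 2).1 (tile_bounds h i 2).2
    exact ⟨y, z, hy, hz, ⟨hy1, hy2⟩, ⟨hz1, hz2⟩⟩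
  -- the numbers are constant
  have hconst : ∀ i j i' j' : ℕ, (i : ℝ) * s₁ + j * s₂ = 1 → (i' : ℝ) * s₁ + j' * s₂ = 1 →
      i = i' ∧ j = j' := by
    intro i j i' j' e1 e2
    have hii : (i : ℝ) = i' := by
      by_contra hne
      apply hr
      have hne' : (i : ℝ) - i' ≠ 0 := sub_ne_zero.2 hne
      refine ⟨(((j' : ℚ) - j) / ((i : ℚ) - i')), ?_⟩
      push_cast
      rw [div_eq_div_iff hne' h₂.ne']
      linear_combination e2 - e1
    have hjj : (j : ℝ) = j' := by
      have : (j : ℝ) * s₂ = j' * s₂ := by rw [hii] at e1; linarith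
      exact mul_right_cancel₀ h₂.ne' this
    exact ⟨by exact_mod_cast hii, by exact_mod_cast hjj⟩
  obtain ⟨y₁, z₁, hy₁, hz₁, ho₁⟩ := hover k1
  obtain ⟨y₂, z₂, hy₂, hz₂, ho₂⟩ := hover k2
  set i₀ := (Finset.univ.filter fun i => Over c s y₁ z₁ i ∧ s i = s₁).card with hi₀
  set j₀ := (Finset.univ.filter fun i => Over c s y₁ z₁ i ∧ s i ≠ s₁).card with hj₀
  have e₀ := line_counts h hw hy₁ hz₁
  have hall : ∀ y z, Gen c s 1 y → Gen c s 2 z →
      (Finset.univ.filter fun i => Over c s y z i ∧ s i = s₁).card = i₀ ∧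
      (Finset.univ.filter fun i => Over c s y z i ∧ s i ≠ s₁).card = j₀ := by
    intro y z hy hz
    exact hconst _ _ _ _ (line_counts h hw hy hz) e₀
  have hi0 : 0 < i₀ := Finset.card_pos.2 ⟨k1, by simp [ho₁, hk1']⟩
  have hj0 : 0 < j₀ := by
    rw [← (hall y₂ z₂ hy₂ hz₂).2]
    exact Finset.card_pos.2 ⟨k2, by simp [ho₂, hk2]⟩
  -- the slice at height `z₁`
  let T₁ := Finset.univ.filter fun i => (c i 2 < z₁ ∧ z₁ < c i 2 + s i) ∧ s i = s₁
  let T₂ := Finset.univ.filter fun i => (c i 2 < z₁ ∧ z₁ < c i 2 + s i) ∧ s i ≠ s₁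
  have hT₁ : ∑ i ∈ T₁, s i = i₀ := by
    refine slice_sum h T₁ (fun i hi => ((Finset.mem_filter.1 hi).2).1) i₀ fun y hy => ?_
    rw [← (hall y z₁ hy hz₁).1, Finset.filter_filter]
    congr 1
    ext i
    constructor
    · intro hi
      have h5 := (Finset.mem_filter.1 hi).2
      exact Finset.mem_filter.2 ⟨Finset.mem_univ _, h5.2, h5.1.2⟩
    · intro hi
      have h5 := (Finset.mem_filter.1 hi).2
      exact Finset.mem_filter.2 ⟨Finset.mem_univ _, ⟨h5.1.2, h5.2⟩, h5.1⟩
  have hT₂ : ∑ i ∈ T₂, s i = j₀ := by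
    refine slice_sum h T₂ (fun i hi => ((Finset.mem_filter.1 hi).2).1) j₀ fun y hy => ?_
    rw [← (hall y z₁ hy hz₁).2, Finset.filter_filter]
    congr 1
    ext i
    constructor
    · intro hi
      have h5 := (Finset.mem_filter.1 hi).2
      exact Finset.mem_filter.2 ⟨Finset.mem_univ _, h5.2, h5.1.2⟩
    · intro hi
      have h5 := (Finset.mem_filter.1 hi).2
      exact Finset.mem_filter.2 ⟨Finset.mem_univ _, ⟨h5.1.2, h5.2⟩, h5.1⟩
  rw [Finset.sum_congr rfl (g := fun _ => s₁) (fun i hi => (Finset.mem_filter.1 hi).2.2),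
    Finset.sum_const, nsmul_eq_mul] at hT₁
  rw [Finset.sum_congr rfl (g := fun _ => s₂)
    (fun i hi => (hw i).resolve_left (Finset.mem_filter.1 hi).2.2),
    Finset.sum_const, nsmul_eq_mul] at hT₂
  have hi0' : (0 : ℝ) < i₀ := by exact_mod_cast hi0
  have hj0' : (0 : ℝ) < j₀ := by exact_mod_cast hj0
  have ht1 : (T₁.card : ℝ) ≠ 0 := by
    intro h0; rw [h0, zero_mul] at hT₁; exact hi0'.ne hT₁
  have ht2 : (T₂.card : ℝ) ≠ 0 := by
    intro h0; rw [h0, zero_mul] at hT₂; exact hj0'.ne hT₂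
  apply hr
  refine ⟨((i₀ : ℚ) * T₂.card) / ((j₀ : ℚ) * T₁.card), ?_⟩
  push_cast
  rw [div_eq_div_iff (mul_ne_zero hj0'.ne' ht1) h₂.ne', ← hT₁, ← hT₂]
  ring

/-- Arithmetic of the tilings with ratio `a : b`. -/
lemma exists_cube_sum {n : ℕ} {c : Fin n → Fin 3 → ℝ} {s : Fin n → ℝ} (h : IsTiling c s)
    {a b : ℕ} (u : ℝ) (hw : ∀ i, s i = a * u ∨ s i = b * u) :
    ∃ (K : ℕ) (w : Fin n → ℕ), (∀ i, w i = a ∨ w i = b) ∧ ∑ i, w i ^ 3 = K ^ 3 := by
  classical
  let w : Fin n → ℕ := fun i => if s i = a * u then a else b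
  have hwi : ∀ i, s i = w i * u := by
    intro i
    by_cases hi : s i = a * u
    · simp [w, hi]
    · have := (hw i).resolve_left hi
      simp only [w, hi, if_false]
      exact this
  obtain ⟨I, hI⟩ := line_one h
  have hv := vol_one h
  simp only [hwi] at hI hv
  rw [← Finset.sum_mul] at hI
  simp only [mul_pow] at hv
  rw [← Finset.sum_mul] at hv
  refine ⟨∑ i ∈ I, w i, w, ?_, ?_⟩
  · intro i
    by_cases hi : s i = a * u
    · left; simp [w, hi]
    · right; simp [w, hi]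
  · have hu : u ≠ 0 := by
      rintro rfl
      simp at hI
    have h1 : (∑ i, (w i : ℝ) ^ 3) * u ^ 3 = (∑ i ∈ I, (w i : ℝ)) ^ 3 * u ^ 3 := by
      rw [hv, ← mul_pow, hI, one_pow]
    have h2 := mul_right_cancel₀ (pow_ne_zero 3 hu) h1
    exact_mod_cast h2

lemma exists_prime {a b : ℕ} (ha : 0 < a) (hb : 0 < b) (hab : a.Coprime b) (hne : a ≠ b) :
    ∃ p : ℕ, p.Prime ∧ p ∣ a ^ 2 + a * b + b ^ 2 ∧ ¬ p ∣ a ∧
      ∃ v : ZMod p, v ^ 3 = 1 ∧ v ≠ 1 := by
  set m := a ^ 2 + a * b + b ^ 2 with hm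
  have h3 : ∃ p : ℕ, p.Prime ∧ p ∣ m ∧ p ≠ 3 := by
    by_contra hcon
    push Not at hcon
    have hm0 : m ≠ 0 := by positivity
    obtain ⟨k, hk⟩ : ∃ k, m = 3 ^ k :=
      ⟨_, Nat.eq_prime_pow_of_unique_prime_dvd (p := 3) hm0 (fun {q} hq hqm => hcon q hq hqm)⟩
    rcases k with _ | _ | k
    · have : 3 ≤ m := by
        rw [hm]; nlinarith
      rw [hk] at this
      simp at this
    · have h7 : 7 ≤ m := by
        rcases Nat.lt_or_gt_of_ne hne with h | h
        · have : 2 ≤ b := by omega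
          rw [hm]; nlinarith
        · have : 2 ≤ a := by omega
          rw [hm]; nlinarith
      rw [hk] at h7
      simp at h7
    · have h9 : 9 ∣ m := ⟨3 ^ k, by rw [hk]; ring⟩
      have key : ∀ x : Fin 9, ∀ y : Fin 9,
          (x.val ^ 2 + x.val * y.val + y.val ^ 2) % 9 = 0 → x.val % 3 = 0 ∧ y.val % 3 = 0 := by
        decide
      have h10 := key ⟨a % 9, Nat.mod_lt _ (by norm_num)⟩ ⟨b % 9, Nat.mod_lt _ (by norm_num)⟩ (by
        have : m % 9 = 0 := Nat.mod_eq_zero_of_dvd h9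
        rw [hm] at this
        simpa [Nat.add_mod, Nat.pow_mod, Nat.mul_mod] using this)
      simp only [Nat.mod_mod_of_dvd _ (by norm_num : 3 ∣ 9)] at h10
      exact Nat.not_coprime_of_dvd_of_dvd (by norm_num : 1 < 3) (Nat.dvd_of_mod_eq_zero h10.1)
        (Nat.dvd_of_mod_eq_zero h10.2) hab
  obtain ⟨p, hp, hpm, hp3⟩ := h3
  have : Fact p.Prime := ⟨hp⟩
  have hpb : ¬ p ∣ b := by
    intro h
    have h1 : p ∣ a ^ 2 := by
      have h2 : p ∣ a * b + b ^ 2 := (h.mul_left a).add (dvd_pow h two_ne_zero)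
      have h3 : p ∣ a ^ 2 + (a * b + b ^ 2) := by rw [← add_assoc]; exact hpm
      exact (Nat.dvd_add_left h2).1 h3
    have h2 := hp.dvd_of_dvd_pow h1
    exact Nat.not_coprime_of_dvd_of_dvd hp.one_lt h2 h hab
  have hpa : ¬ p ∣ a := by
    intro h
    have h1 : p ∣ b ^ 2 := by
      have h2 : p ∣ a ^ 2 + a * b := (dvd_pow h two_ne_zero).add (h.mul_right b)
      exact (Nat.dvd_add_right h2).1 hpm
    exact hpb (hp.dvd_of_dvd_pow h1)
  refine ⟨p, hp, hpm, hpa, (a : ZMod p) / b, ?_, ?_⟩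
  · have hb0 : (b : ZMod p) ≠ 0 := by
      rwa [Ne, ZMod.natCast_eq_zero_iff]
    have hm0 : (a : ZMod p) ^ 2 + a * b + b ^ 2 = 0 := by
      have := (ZMod.natCast_eq_zero_iff m p).2 hpm
      rw [hm] at this
      push_cast at this
      exact this
    rw [div_pow, div_eq_one_iff_eq (pow_ne_zero 3 hb0)]
    linear_combination ((a : ZMod p) - b) * hm0
  · intro h
    have hb0 : (b : ZMod p) ≠ 0 := by
      rwa [Ne, ZMod.natCast_eq_zero_iff]
    rw [div_eq_one_iff_eq hb0] at h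
    have hm0 : (a : ZMod p) ^ 2 + a * b + b ^ 2 = 0 := by
      have := (ZMod.natCast_eq_zero_iff m p).2 hpm
      rw [hm] at this
      push_cast at this
      exact this
    rw [h] at hm0
    have h4 : (3 : ZMod p) * (b : ZMod p) ^ 2 = 0 := by linear_combination hm0
    rcases mul_eq_zero.1 h4 with h5 | h5
    · have h6 : ((3 : ℕ) : ZMod p) = 0 := by exact_mod_cast h5
      rw [ZMod.natCast_eq_zero_iff] at h6
      exact hp3 ((Nat.prime_dvd_prime_iff_eq hp Nat.prime_three).1 h6)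
    · exact hb0 (pow_eq_zero_iff two_ne_zero |>.1 h5)


/-- Not every residue is a cube modulo such a prime. -/
lemma exists_noncube {p : ℕ} [Fact p.Prime] (v : ZMod p) (hv : v ^ 3 = 1) (hv1 : v ≠ 1) :
    ∃ c : ZMod p, ∀ x : ZMod p, x ^ 3 ≠ c := by
  by_contra hcon
  push Not at hcon
  have hsurj : Function.Surjective (fun x : ZMod p => x ^ 3) := fun c => by
    obtain ⟨x, hx⟩ := hcon c
    exact ⟨x, hx⟩
  have hinj := Finite.injective_iff_surjective.2 hsurj
  exact hv1 (hinj (by simp [hv]))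

lemma exists_avoid (P : Finset ℕ) (hP : ∀ p ∈ P, p.Prime)
    (hc : ∀ p ∈ P, ∃ c : ℕ, ∀ x : ZMod p, x ^ 3 ≠ (c : ZMod p)) (N₀ : ℕ) :
    ∃ n, N₀ ≤ n ∧ ∀ p ∈ P, ∀ x : ZMod p, x ^ 3 ≠ (n : ZMod p) := by
  classical
  choose! f hf using hc
  obtain ⟨k, hk⟩ := Nat.chineseRemainderOfFinset f id P (fun p hp => (hP p hp).ne_zero) (by
    intro p hp q hq hpq
    exact (Nat.coprime_primes (hP p hp) (hP q hq)).2 hpq)
  refine ⟨k + N₀ * ∏ p ∈ P, p, ?_, ?_⟩
  · have : 1 ≤ ∏ p ∈ P, p := Nat.one_le_iff_ne_zero.2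
      (Finset.prod_ne_zero_iff.2 fun p hp => (hP p hp).ne_zero)
    nlinarith
  · intro p hp x hx
    apply hf p hp x
    rw [hx]
    have h1 : ((k : ℕ) : ZMod p) = (f p : ZMod p) :=
      (ZMod.natCast_eq_natCast_iff _ _ _).2 (hk p hp)
    have h2 : ((∏ p ∈ P, p : ℕ) : ZMod p) = 0 :=
      (ZMod.natCast_eq_zero_iff _ _).2 (Finset.dvd_prod_of_mem _ hp)
    rw [Nat.cast_add, Nat.cast_mul, h2, mul_zero, add_zero, h1]

lemma seven : ∃ c : ℕ, ∀ x : ZMod 7, x ^ 3 ≠ (c : ZMod 7) := ⟨2, by decide⟩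

/-- For each ratio there is a prime number `p` such that the number of tiles of a tiling with this
ratio is a cube modulo `p`, and not all residues are cubes modulo `p`. -/
lemma main (r : ℝ) : ∃ p : ℕ, p.Prime ∧ (∃ c : ℕ, ∀ x : ZMod p, x ^ 3 ≠ (c : ZMod p)) ∧
    ∀ (n : ℕ) (c : Fin n → Fin 3 → ℝ) (s : Fin n → ℝ) (s₁ s₂ : ℝ), 0 < s₁ → 0 < s₂ →
      s₁ / s₂ = r → (∀ i, s i = s₁ ∨ s i = s₂) → IsTiling c s →
      ∃ x : ZMod p, x ^ 3 = (n : ZMod p) := by
  -- tilings by equal cubes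
  have heq : ∀ (n : ℕ) (c : Fin n → Fin 3 → ℝ) (s : Fin n → ℝ) (u : ℝ), IsTiling c s →
      (∀ i, s i = u) → ∃ x : ZMod 7, x ^ 3 = (n : ZMod 7) := by
    intro n c s u h hu
    obtain ⟨K, w, hw, hK⟩ := exists_cube_sum h (a := 1) (b := 1) u (fun i => Or.inl (by simp [hu i]))
    have hw1 : ∀ i, w i = 1 := fun i => by rcases hw i with h | h <;> exact h
    simp only [hw1, one_pow, Finset.sum_const, Finset.card_univ, Fintype.card_fin, smul_eq_mul,
      mul_one] at hK
    exact ⟨K, by rw [hK]; push_cast; rfl⟩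
  by_cases hirr : Irrational r
  · refine ⟨7, by norm_num, seven, ?_⟩
    intro n c s s₁ s₂ h₁ h₂ hr hw h
    rcases irr h h₂ (hr ▸ hirr) hw with h3 | h3
    · exact heq n c s s₁ h h3
    · exact heq n c s s₂ h h3
  · by_cases hr1 : r = 1
    · refine ⟨7, by norm_num, seven, ?_⟩
      intro n c s s₁ s₂ h₁ h₂ hr hw h
      rw [hr1, div_eq_one_iff_eq h₂.ne'] at hr
      refine heq n c s s₂ h fun i => ?_
      rcases hw i with h3 | h3
      · rw [h3, hr]
      · exact h3
    · by_cases hr0 : r ≤ 0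
      · refine ⟨7, by norm_num, seven, ?_⟩
        intro n c s s₁ s₂ h₁ h₂ hr hw h
        exact absurd (hr ▸ div_pos h₁ h₂) (not_lt.2 hr0)
      · push Not at hr0
        rw [Irrational, not_not] at hirr
        obtain ⟨q, hq⟩ := hirr
        have hq0 : 0 < q := by
          rw [← hq] at hr0; exact_mod_cast hr0
        have hqn : 0 < q.num := Rat.num_pos.2 hq0
        obtain ⟨a, ha⟩ : ∃ a : ℕ, (a : ℤ) = q.num := ⟨q.num.toNat, Int.toNat_of_nonneg hqn.le⟩
        have ha0 : 0 < a := by omega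
        have hcop : a.Coprime q.den := by
          have := q.reduced
          rwa [← ha, Int.natAbs_natCast] at this
        have hqab : (q : ℝ) = (a : ℝ) / (q.den : ℝ) := by
          have : q = (a : ℚ) / (q.den : ℚ) := by
            conv_lhs => rw [← Rat.num_div_den q]
            rw [← ha]; push_cast; rfl
          rw [this]
          push_cast
          rw [← this]
        have hne : a ≠ q.den := by
          intro hab
          apply hr1
          rw [← hq, hqab, hab, div_self]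
          exact_mod_cast q.den_pos.ne'
        obtain ⟨p, hp, hpm, hpa, v, hv, hv1⟩ := exists_prime ha0 q.den_pos hcop hne
        have : Fact p.Prime := ⟨hp⟩
        refine ⟨p, hp, ?_, ?_⟩
        · obtain ⟨c, hc⟩ := exists_noncube v hv hv1
          refine ⟨c.val, fun x => ?_⟩
          rw [ZMod.natCast_zmod_val]
          exact hc x
        · intro n c s s₁ s₂ h₁ h₂ hr hw h
          have hd0 : (q.den : ℝ) ≠ 0 := by exact_mod_cast q.den_pos.ne'
          have hs1 : s₁ = a * (s₂ / q.den) := by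
            have : s₁ = r * s₂ := by rw [← hr]; field_simp
            rw [this, ← hq, hqab]; field_simp
          have hs2 : s₂ = q.den * (s₂ / q.den) := by field_simp
          obtain ⟨K, w, hw', hK⟩ := exists_cube_sum h (a := a) (b := q.den) (s₂ / q.den)
            (fun i => by
              rcases hw i with h3 | h3
              · left; rw [h3]; exact hs1
              · right; rw [h3]; exact hs2)
          have hm0 : (a : ZMod p) ^ 2 + a * q.den + (q.den : ZMod p) ^ 2 = 0 := by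
            have := (ZMod.natCast_eq_zero_iff _ p).2 hpm
            push_cast at this
            exact this
          have hab3 : (q.den : ZMod p) ^ 3 = (a : ZMod p) ^ 3 := by
            linear_combination ((q.den : ZMod p) - a) * hm0
          have hw3 : ∀ i, ((w i : ZMod p)) ^ 3 = (a : ZMod p) ^ 3 := by
            intro i
            rcases hw' i with h3 | h3
            · rw [h3]
            · rw [h3, hab3]
          have hK' : (∑ i : Fin n, ((w i : ZMod p)) ^ 3) = (K : ZMod p) ^ 3 := by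
            exact_mod_cast congrArg (Nat.cast (R := ZMod p)) hK
          simp only [hw3, Finset.sum_const, Finset.card_univ, Fintype.card_fin,
            nsmul_eq_mul] at hK'
          have ha0' : (a : ZMod p) ≠ 0 := by rwa [Ne, ZMod.natCast_eq_zero_iff]
          refine ⟨(K : ZMod p) / a, ?_⟩
          rw [div_pow, ← hK', mul_div_assoc, div_self (pow_ne_zero 3 ha0'), mul_one]

/-- The corner of the piece `h` of the subdivision of a cube into `k ^ 3` equal cubes. -/
noncomputable def piece (c : Fin 3 → ℝ) (s : ℝ) (k : ℕ) (h : Fin 3 → Fin k) : Fin 3 → ℝ :=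
  fun j => c j + s / k * ((h j : ℕ) : ℝ)

lemma piece_bounds (c : Fin 3 → ℝ) {s : ℝ} (hs : 0 < s) {k : ℕ} (hk : 0 < k) (h : Fin 3 → Fin k)
    (j : Fin 3) : c j ≤ piece c s k h j ∧ piece c s k h j + s / k ≤ c j + s := by
  have hk' : (0 : ℝ) < k := by exact_mod_cast hk
  unfold piece
  constructor
  · have : 0 ≤ s / k * ((h j : ℕ) : ℝ) := by positivity
    linarith
  · have h1 : (((h j : ℕ) : ℝ) + 1) ≤ k := by exact_mod_cast (h j).2
    have h2 : s / k * (((h j : ℕ) : ℝ) + 1) ≤ s / k * k :=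
      mul_le_mul_of_nonneg_left h1 (by positivity)
    rw [div_mul_cancel₀ _ hk'.ne'] at h2
    linarith

lemma sub_union (c : Fin 3 → ℝ) {s : ℝ} (hs : 0 < s) {k : ℕ} (hk : 0 < k) :
    (⋃ h : Fin 3 → Fin k, Cube (piece c s k h) (s / k)) = Cube c s := by
  have hk' : (0 : ℝ) < k := by exact_mod_cast hk
  ext x
  rw [mem_iUnion]
  constructor
  · rintro ⟨h, hx⟩
    refine ⟨fun j => (piece_bounds c hs hk h j).1.trans (hx.1 j), fun j => ?_⟩
    exact (hx.2 j).trans (piece_bounds c hs hk h j).2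
  · rintro ⟨hx1, hx2⟩
    have hex : ∀ j, ∃ m : Fin k, c j + s / k * ((m : ℕ) : ℝ) ≤ x j ∧
        x j ≤ c j + s / k * ((m : ℕ) : ℝ) + s / k := by
      intro j
      have h1 : 0 ≤ x j - c j := sub_nonneg.2 (hx1 j)
      have h2 : x j - c j ≤ s := by have := hx2 j; simp only at this; linarith
      have h3 : 0 ≤ (x j - c j) / (s / k) := by positivity
      by_cases h4 : ⌊(x j - c j) / (s / k)⌋₊ < k
      · refine ⟨⟨_, h4⟩, ?_, ?_⟩
        · have h5 := Nat.floor_le h3
          rw [le_div_iff₀ (by positivity)] at h5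
          simp only
          linarith
        · have h5 := (Nat.lt_floor_add_one ((x j - c j) / (s / k))).le
          rw [div_le_iff₀ (by positivity)] at h5
          simp only
          linarith
      · refine ⟨⟨k - 1, by omega⟩, ?_, ?_⟩
        · push Not at h4
          have h5 : (k : ℝ) ≤ (x j - c j) / (s / k) :=
            le_trans (by exact_mod_cast h4) (Nat.floor_le h3)
          rw [le_div_iff₀ (by positivity)] at h5
          have h6 : ((k - 1 : ℕ) : ℝ) = k - 1 := by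
            rw [Nat.cast_sub (by omega)]; simp
          simp only [h6]
          have h7 : 0 < s / k := by positivity
          nlinarith
        · have h6 : ((k - 1 : ℕ) : ℝ) = k - 1 := by
            rw [Nat.cast_sub (by omega)]; simp
          simp only [h6]
          have h8 : s / k * k = s := div_mul_cancel₀ _ hk'.ne'
          nlinarith
    choose m hm1 hm2 using hex
    exact ⟨m, hm1, hm2⟩

lemma sub_int (c : Fin 3 → ℝ) {s : ℝ} (hs : 0 < s) {k : ℕ} (hk : 0 < k) (h : Fin 3 → Fin k) :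
    interior (Cube (piece c s k h) (s / k)) ⊆ interior (Cube c s) := by
  rw [int_cube, int_cube]
  intro x hx j
  exact ⟨(piece_bounds c hs hk h j).1.trans_lt (hx j).1,
    (hx j).2.trans_le (piece_bounds c hs hk h j).2⟩

lemma sub_disj (c : Fin 3 → ℝ) {s : ℝ} (hs : 0 < s) {k : ℕ} (hk : 0 < k) {h h' : Fin 3 → Fin k}
    (hne : h ≠ h') : Disjoint (interior (Cube (piece c s k h) (s / k)))
      (interior (Cube (piece c s k h') (s / k))) := by
  have hk' : (0 : ℝ) < k := by exact_mod_cast hk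
  have hd : 0 < s / k := by positivity
  rw [int_cube, int_cube, Set.disjoint_left]
  intro x hx hx'
  obtain ⟨j, hj⟩ := Function.ne_iff.1 hne
  have hj' : (h j : ℕ) ≠ h' j := fun h5 => hj (Fin.ext h5)
  have h1 := hx j
  have h2 := hx' j
  unfold piece at h1 h2
  rcases Nat.lt_or_gt_of_ne hj' with h3 | h3
  · have h4 : ((h j : ℕ) : ℝ) + 1 ≤ ((h' j : ℕ) : ℝ) := by exact_mod_cast h3
    have h5 := mul_le_mul_of_nonneg_left h4 hd.le
    linarith [h1.2, h2.1]
  · have h4 : ((h' j : ℕ) : ℝ) + 1 ≤ ((h j : ℕ) : ℝ) := by exact_mod_cast h3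
    have h5 := mul_le_mul_of_nonneg_left h4 hd.le
    linarith [h1.1, h2.2]

/-- The unit cube is divided into `M ^ 3` blocks and the block `g` into `k g ^ 3` cubes. -/
lemma tiling_blocks {M : ℕ} (hM : 2 ≤ M) (k : (Fin 3 → Fin M) → ℕ) (hk : ∀ g, 0 < k g) :
    IsTiling (ι := Σ g : Fin 3 → Fin M, (Fin 3 → Fin (k g)))
      (fun i => piece (piece 0 1 M i.1) (1 / M) (k i.1) i.2) (fun i => 1 / M / k i.1) := by
  have hM0 : 0 < M := by omega
  have hM' : (0 : ℝ) < M := by exact_mod_cast hM0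
  have hs : (0 : ℝ) < 1 / M := by positivity
  refine ⟨fun i => ⟨?_, ?_⟩, ?_, ?_⟩
  · have : (0 : ℝ) < k i.1 := by exact_mod_cast hk i.1
    positivity
  · have h1 : (1 : ℝ) ≤ k i.1 := by exact_mod_cast hk i.1
    have h2 : (2 : ℝ) ≤ M := by exact_mod_cast hM
    have h3 : 1 / (M : ℝ) < 1 := by
      rw [div_lt_one hM']; linarith
    exact (div_le_self hs.le h1).trans_lt h3
  · rw [iUnion_sigma]
    have h1 : ∀ g : Fin 3 → Fin M, (⋃ h : Fin 3 → Fin (k g),
        Cube (piece (piece 0 1 M g) (1 / M) (k g) h) (1 / M / k g)) =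
        Cube (piece 0 1 M g) (1 / M) := fun g => sub_union _ hs (hk g)
    simp only [h1]
    rw [sub_union 0 one_pos hM0]
    unfold Cube
    congr 1
    ext k
    simp
  · rintro ⟨g, h⟩ ⟨g', h'⟩ hne
    by_cases hg : g = g'
    · subst hg
      refine sub_disj _ hs (hk g) ?_
      rintro rfl
      exact hne rfl
    · exact (sub_disj 0 one_pos hM0 hg).mono (sub_int _ hs (hk g) h) (sub_int _ hs (hk g') h')

lemma sum_blocks (N y a b : ℕ) (hy : y ≤ N) :
    ∑ i : Fin N, (if (i : ℕ) < y then b else a) ^ 3 = y * b ^ 3 + (N - y) * a ^ 3 := by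
  rw [Fin.sum_univ_eq_sum_range (fun i => (if i < y then b else a) ^ 3) N]
  obtain ⟨z, rfl⟩ := Nat.exists_eq_add_of_le hy
  rw [Finset.sum_range_add]
  rw [Finset.sum_congr rfl (g := fun _ => b ^ 3) (fun i hi => by
    rw [if_pos (Finset.mem_range.1 hi)])]
  rw [Finset.sum_congr (s₁ := Finset.range z) rfl (g := fun _ => a ^ 3) (fun i _ => by
    rw [if_neg (by omega)])]
  simp

/-- There is a tiling by `n = y b ^ 3 + (M ^ 3 - y) a ^ 3` cubes. -/
lemma exists_tiling {M y a b : ℕ} (hM : 2 ≤ M) (ha : 0 < a) (hb : 0 < b) (hy : y ≤ M ^ 3) {n : ℕ}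
    (hn : n = y * b ^ 3 + (M ^ 3 - y) * a ^ 3) :
    ∃ (c : Fin n → Fin 3 → ℝ) (s : Fin n → ℝ),
      (∀ i, s i = 1 / M / b ∨ s i = 1 / M / a) ∧ IsTiling c s := by
  classical
  have hcard : Fintype.card (Fin 3 → Fin M) = M ^ 3 := by simp
  let e : (Fin 3 → Fin M) ≃ Fin (M ^ 3) := Fintype.equivFinOfCardEq hcard
  let k : (Fin 3 → Fin M) → ℕ := fun g => if (e g : ℕ) < y then b else a
  have hk : ∀ g, 0 < k g := by
    intro g
    by_cases h : (e g : ℕ) < y <;> simp [k, h, ha, hb]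
  have ht := tiling_blocks hM k hk
  have hcard2 : Fintype.card (Σ g : Fin 3 → Fin M, (Fin 3 → Fin (k g))) = n := by
    rw [Fintype.card_sigma]
    simp only [Fintype.card_fun, Fintype.card_fin]
    rw [hn, ← sum_blocks (M ^ 3) y a b hy]
    exact Fintype.sum_equiv e _ _ (fun g => rfl)
  let φ := (Fintype.equivFinOfCardEq hcard2).symm
  refine ⟨_, _, ?_, ⟨fun i => ht.1 (φ i), ?_, fun i j hij => ht.2.2 (φ i) (φ j)
    (fun h => hij (φ.injective h))⟩⟩
  · intro i
    by_cases h : (e (φ i).1 : ℕ) < y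
    · left; simp only [k, if_pos h]
    · right; simp only [k, if_neg h]
  · rw [← ht.2.1]
    exact φ.surjective.iUnion_comp (fun i => Cube (piece (piece 0 1 M i.1) (1 / M) (k i.1) i.2)
      (1 / M / k i.1))


lemma coprime_diff {a b : ℕ} (hab : a < b) (hc : a.Coprime b) : a.Coprime (b ^ 3 - a ^ 3) := by
  have h1 : b ^ 3 = (b ^ 3 - a ^ 3) + a * a ^ 2 := by
    have : a ^ 3 ≤ b ^ 3 := Nat.pow_le_pow_left hab.le 3
    have h2 : a * a ^ 2 = a ^ 3 := by ring
    omega
  have h2 : a.Coprime (b ^ 3) := hc.pow_right 3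
  rw [h1, Nat.coprime_add_mul_left_right] at h2
  exact h2

lemma exists_My {a b : ℕ} (ha : 0 < a) (hab : a < b) (hc : a.Coprime b) :
    ∃ n₀, ∀ n, n₀ ≤ n → (∃ t : ℕ, t ^ 3 ≡ n [MOD b ^ 3 - a ^ 3]) →
      ∃ M y : ℕ, 2 ≤ M ∧ y ≤ M ^ 3 ∧ n = y * b ^ 3 + (M ^ 3 - y) * a ^ 3 := by
  have hcD := coprime_diff hab hc
  have hb3 : b ^ 3 = a ^ 3 + (b ^ 3 - a ^ 3) := by
    have : a ^ 3 ≤ b ^ 3 := Nat.pow_le_pow_left hab.le 3
    omega
  have hD0 : 0 < b ^ 3 - a ^ 3 := Nat.sub_pos_of_lt (Nat.pow_lt_pow_left hab (by norm_num))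
  set D := b ^ 3 - a ^ 3 with hD
  refine ⟨(a * (b * D + D + 2)) ^ 3, fun n hn ht => ?_⟩
  obtain ⟨t, ht⟩ := ht
  set m₁ := Nat.findGreatest (fun m => (a * m) ^ 3 ≤ n) n with hm₁
  have hle : ∀ m : ℕ, m ≤ (a * m) ^ 3 := by
    intro m
    calc m ≤ a * m := Nat.le_mul_of_pos_left m ha
      _ ≤ (a * m) ^ 3 := Nat.le_self_pow (by norm_num) _
  have hL : b * D + D + 2 ≤ m₁ :=
    Nat.le_findGreatest ((hle _).trans hn) hn
  have hm1 : (a * m₁) ^ 3 ≤ n :=
    Nat.findGreatest_spec (P := fun m => (a * m) ^ 3 ≤ n) ((hle _).trans hn) hn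
  have hm2 : n < (a * (m₁ + 1)) ^ 3 := by
    by_contra hcon
    push Not at hcon
    have := Nat.le_findGreatest (P := fun m => (a * m) ^ 3 ≤ n) ((hle _).trans hcon) hcon
    omega
  obtain ⟨M₀, hM₀, hM₀'⟩ := Nat.exists_mul_mod_eq_of_coprime t hcD hD0.ne'
  have hr : (m₁ - M₀) % D < D := Nat.mod_lt _ hD0
  have hq := Nat.div_add_mod (m₁ - M₀) D
  obtain ⟨M, hM⟩ : ∃ M, M = M₀ + D * ((m₁ - M₀) / D) := ⟨_, rfl⟩
  have hMm : M + (m₁ - M₀) % D = m₁ := by omega
  have hMle : M ≤ m₁ := by omega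
  have hMge : m₁ + 1 ≤ M + D := by omega
  have hmod : (a * M) ^ 3 ≡ n [MOD D] := by
    have h1 : M ≡ M₀ [MOD D] := by
      rw [hM]
      simp [Nat.ModEq]
    have h2 : a * M ≡ t [MOD D] := (h1.mul_left a).trans hM₀'
    exact (h2.pow 3).trans ht
  have hle1 : (a * M) ^ 3 ≤ n :=
    (Nat.pow_le_pow_left (Nat.mul_le_mul_left a hMle) 3).trans hm1
  obtain ⟨y, hy⟩ := (Nat.modEq_iff_dvd' hle1).1 hmod
  have hny : n = (a * M) ^ 3 + D * y := by omega
  have hbM : a * (m₁ + 1) ≤ b * M := by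
    have h1 : (a + 1) * (m₁ + 1) ≤ b * (m₁ + 1) := Nat.mul_le_mul_right _ hab
    have h2 : b * (m₁ + 1) ≤ b * (M + D) := Nat.mul_le_mul_left _ hMge
    have h3 : (a + 1) * (m₁ + 1) = a * (m₁ + 1) + (m₁ + 1) := by ring
    have h4 : b * (M + D) = b * M + b * D := by ring
    omega
  have hlt : n < (b * M) ^ 3 := hm2.trans_le (Nat.pow_le_pow_left hbM 3)
  have hyM : y ≤ M ^ 3 := by
    by_contra hcon
    push Not at hcon
    have h1 : D * M ^ 3 ≤ D * y := Nat.mul_le_mul_left _ hcon.le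
    have h2 : (b * M) ^ 3 = (a * M) ^ 3 + D * M ^ 3 := by
      rw [mul_pow, mul_pow, hb3]; ring
    omega
  have hb1 : 1 ≤ b * D := Nat.mul_pos (by omega) hD0
  refine ⟨M, y, by omega, hyM, ?_⟩
  obtain ⟨z, hz⟩ := Nat.exists_eq_add_of_le hyM
  rw [hny, hz, Nat.add_sub_cancel_left, hb3, mul_pow, hz]
  ring

/-- The unit cube has a tiling by exactly `n` cubes, each of side length `s₁` or `s₂`, where
`s₁ / s₂ = r`. -/
def TilesWithRatio (r : ℝ) (n : ℕ) : Prop :=
  ∃ (c : Fin n → Fin 3 → ℝ) (s : Fin n → ℝ) (s₁ s₂ : ℝ), 0 < s₁ ∧ 0 < s₂ ∧ s₁ / s₂ = r ∧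
    (∀ i, s i = s₁ ∨ s i = s₂) ∧ IsTiling c s

lemma necessary {a b : ℕ} (ha : 0 < a) (hab : a < b) (hc : a.Coprime b) {n : ℕ}
    (h : TilesWithRatio ((a : ℝ) / b) n) : ∃ t : ℕ, t ^ 3 ≡ n [MOD b ^ 3 - a ^ 3] := by
  obtain ⟨c, s, s₁, s₂, h₁, h₂, hr, hw, ht⟩ := h
  have hcD := coprime_diff hab hc
  have hb0 : (b : ℝ) ≠ 0 := by
    have : b ≠ 0 := by omega
    exact_mod_cast this
  have hs1 : s₁ = a * (s₂ / b) := by
    rw [div_eq_div_iff h₂.ne' hb0] at hr
    field_simp
    linarith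
  have hs2 : s₂ = b * (s₂ / b) := by field_simp
  obtain ⟨K, w, hw', hK⟩ := exists_cube_sum ht (a := a) (b := b) (s₂ / b)
    (fun i => by
      rcases hw i with h3 | h3
      · left; rw [h3]; exact hs1
      · right; rw [h3]; exact hs2)
  have hD1 : 1 < b ^ 3 - a ^ 3 := by
    have h1 : (a + 1) ^ 3 ≤ b ^ 3 := Nat.pow_le_pow_left hab 3
    have h2 : (a + 1) ^ 3 = a ^ 3 + (3 * a ^ 2 + 3 * a + 1) := by ring
    omega
  obtain ⟨m, -, hm⟩ := Nat.exists_mul_mod_eq_one_of_coprime hcD hD1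
  have hm' : a * m ≡ 1 [MOD b ^ 3 - a ^ 3] := by
    rw [Nat.ModEq, hm, Nat.mod_eq_of_lt hD1]
  have hw3 : ∀ i, w i ^ 3 ≡ a ^ 3 [MOD b ^ 3 - a ^ 3] := by
    intro i
    rcases hw' i with h3 | h3
    · rw [h3]
    · rw [h3]
      exact ((Nat.modEq_iff_dvd' (Nat.pow_le_pow_left hab.le 3)).2 dvd_rfl).symm
  have hK' : K ^ 3 ≡ n * a ^ 3 [MOD b ^ 3 - a ^ 3] := by
    rw [← hK]
    have h5 : ∀ S : Finset (Fin n), ∑ i ∈ S, w i ^ 3 ≡ S.card * a ^ 3 [MOD b ^ 3 - a ^ 3] := by
      intro S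
      classical
      induction S using Finset.induction_on with
      | empty => simp [Nat.ModEq]
      | insert i S hi ih =>
        rw [Finset.sum_insert hi, Finset.card_insert_of_notMem hi]
        have h6 : (S.card + 1) * a ^ 3 = a ^ 3 + S.card * a ^ 3 := by ring
        rw [h6]
        exact (hw3 i).add ih
    have h7 := h5 Finset.univ
    rwa [Finset.card_univ, Fintype.card_fin] at h7
  refine ⟨K * m, ?_⟩
  rw [mul_pow]
  calc K ^ 3 * m ^ 3 ≡ n * a ^ 3 * m ^ 3 [MOD b ^ 3 - a ^ 3] := hK'.mul_right _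
    _ = n * (a * m) ^ 3 := by ring
    _ ≡ n * 1 ^ 3 [MOD b ^ 3 - a ^ 3] := (hm'.pow 3).mul_left _
    _ = n := by ring

lemma sufficient {a b : ℕ} (ha : 0 < a) (hab : a < b) (hc : a.Coprime b) :
    ∃ n₀, ∀ n, n₀ ≤ n → (∃ t : ℕ, t ^ 3 ≡ n [MOD b ^ 3 - a ^ 3]) →
      TilesWithRatio ((a : ℝ) / b) n := by
  obtain ⟨n₀, h⟩ := exists_My ha hab hc
  refine ⟨n₀, fun n hn ht => ?_⟩
  obtain ⟨M, y, hM, hy, hny⟩ := h n hn ht
  have hb : 0 < b := by omega
  obtain ⟨c, s, hs, hT⟩ := exists_tiling hM ha hb hy hny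
  have hM0 : (0 : ℝ) < M := by
    have : 0 < M := by omega
    exact_mod_cast this
  have ha' : (0 : ℝ) < a := by exact_mod_cast ha
  have hb' : (0 : ℝ) < b := by exact_mod_cast hb
  refine ⟨c, s, 1 / M / b, 1 / M / a, by positivity, by positivity, ?_, hs, hT⟩
  field_simp

lemma irrational_ratio {r : ℝ} (hr : Irrational r) {n : ℕ} (h : TilesWithRatio r n) :
    ∃ t : ℕ, n = t ^ 3 := by
  obtain ⟨c, s, s₁, s₂, h₁, h₂, hr', hw, ht⟩ := h
  have heq : ∀ u : ℝ, (∀ i, s i = u) → ∃ t : ℕ, n = t ^ 3 := by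
    intro u hu
    obtain ⟨K, w, hw, hK⟩ := exists_cube_sum ht (a := 1) (b := 1) u
      (fun i => Or.inl (by simp [hu i]))
    have hw1 : ∀ i, w i = 1 := fun i => by rcases hw i with h | h <;> exact h
    simp only [hw1, one_pow, Finset.sum_const, Finset.card_univ, Fintype.card_fin, smul_eq_mul,
      mul_one] at hK
    exact ⟨K, hK⟩
  rcases irr ht h₂ (hr' ▸ hr) hw with h3 | h3
  · exact heq s₁ h3
  · exact heq s₂ h3

/-- **Tilings of the cube by cubes of two sizes with a fixed ratio.** Let `a < b` be coprime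
positive integers. If the unit cube has a tiling by `n` cubes with two side lengths of ratio
`a / b`, then `n` is a cube modulo `b ^ 3 - a ^ 3`; and for all large `n` the converse is true. If
there is a tiling with an irrational ratio then `n` is the cube of an integer. Hence for each finite
set `R` of ratios there is a residue class of numbers `n` for which there is no tiling with a
ratio in `R`. -/
theorem result :
    (∀ a b : ℕ, 0 < a → a < b → a.Coprime b →
      (∀ n, TilesWithRatio ((a : ℝ) / b) n → ∃ t : ℕ, t ^ 3 ≡ n [MOD b ^ 3 - a ^ 3]) ∧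
      ∃ n₀, ∀ n, n₀ ≤ n → (∃ t : ℕ, t ^ 3 ≡ n [MOD b ^ 3 - a ^ 3]) →
        TilesWithRatio ((a : ℝ) / b) n) ∧
    (∀ r : ℝ, Irrational r → ∀ n, TilesWithRatio r n → ∃ t : ℕ, n = t ^ 3) ∧
    (∀ R : Finset ℝ, ∃ m n₀ : ℕ, 0 < m ∧ ∀ n : ℕ, n ≡ n₀ [MOD m] →
      ∀ r ∈ R, ¬ TilesWithRatio r n) := by
  classical
  refine ⟨fun a b ha hab hc => ⟨fun n h => necessary ha hab hc h, sufficient ha hab hc⟩,
    fun r hr n h => irrational_ratio hr h, fun R => ?_⟩
  choose p hp hc hmain using main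
  let P : Finset ℕ := R.image p
  have hP : ∀ q ∈ P, q.Prime := by
    intro q hq
    obtain ⟨r, -, rfl⟩ := Finset.mem_image.1 hq
    exact hp r
  have hP' : ∀ q ∈ P, ∃ c : ℕ, ∀ x : ZMod q, x ^ 3 ≠ (c : ZMod q) := by
    intro q hq
    obtain ⟨r, -, rfl⟩ := Finset.mem_image.1 hq
    exact hc r
  obtain ⟨n₀, -, hn₀⟩ := exists_avoid P hP hP' 0
  refine ⟨∏ q ∈ P, q, n₀, Finset.prod_pos fun q hq => (hP q hq).pos, ?_⟩
  intro n hn r hr hT
  obtain ⟨c, s, s₁, s₂, h₁, h₂, hr', hw, h⟩ := hT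
  obtain ⟨x, hx⟩ := hmain r n c s s₁ s₂ h₁ h₂ hr' hw h
  have hmem : p r ∈ P := Finset.mem_image_of_mem p hr
  apply hn₀ _ hmem x
  rw [hx]
  exact (ZMod.natCast_eq_natCast_iff _ _ _).2 (hn.of_dvd (Finset.dvd_prod_of_mem (fun q => q) hmem))

end Pool.Agent.Results.MP_01ad5f_co.FiniteRatios
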